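import Pool.Agent.V1173.Chordal.Fwd
import Pool.Agent.V1173.Chordal.Bwd

/-!
# Mergelyan's theorem for the chordal metric

For every compact set `L` of the plane with connected complement, the chordally uniform limits of
polynomials on `L` are exactly the continuous functions `f : L → Ĉ` which on every component of
the interior of `L` are identically `∞` or finite and holomorphic.

Proof of the approximation: where `|f| ≤ 2` the function is a uniform limit of polynomials by
Mergelyan's theorem (the set has no holes by the maximum principle).  The set `E = {|f| ≥ 1}` may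
have holes, but `f` has only finitely many zeros in them; if `q` is the polynomial with these zeros,
`q / f` extends to the hull of `E` as a function which is zero-free or identically zero on each
component of the interior, hence it is a limit of zero-free polynomials `Q`, and `q / Q` is
chordally close to `f` on `E`.  The two approximations are glued by solving a `∂̄`-equation.
-/

set_option autoImplicit false

namespace Pool.Agent.Results.MP_215127_an.ChordalMergelyan

open Set OnePoint Pool.Agent.V1173.Chordal

/-- The chordal metric on the Riemann sphere `OnePoint ℂ = ℂ ∪ {∞}`. -/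
noncomputable def chordal : OnePoint ℂ → OnePoint ℂ → ℝ
  | OnePoint.some a, OnePoint.some b => ‖a - b‖ / (√(1 + ‖a‖ ^ 2) * √(1 + ‖b‖ ^ 2))
  | OnePoint.some a, OnePoint.infty => 1 / √(1 + ‖a‖ ^ 2)
  | OnePoint.infty, OnePoint.some b => 1 / √(1 + ‖b‖ ^ 2)
  | OnePoint.infty, OnePoint.infty => 0

/-- `f : L → Ĉ` is a `χ`-uniform limit on `L` of a sequence of polynomials. -/
def IsPolynomialLimit (L : Set ℂ) (f : L → OnePoint ℂ) : Prop :=
  ∃ p : ℕ → Polynomial ℂ, ∀ ε : ℝ, 0 < ε → ∃ N : ℕ, ∀ n ≥ N, ∀ z : L,
    chordal (((p n).eval (z : ℂ) : ℂ) : OnePoint ℂ) (f z) < ε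

/-- The class `𝓜(L)`: continuous maps `f : L → Ĉ` such that on each connected component `V` of the
interior of `L` either `f ≡ ∞`, or `f` is finite and holomorphic. -/
def InM (L : Set ℂ) (f : L → OnePoint ℂ) : Prop :=
  Continuous f ∧ ∀ z₀ ∈ interior L,
    (∀ z : L, (z : ℂ) ∈ connectedComponentIn (interior L) z₀ → f z = ∞) ∨
    ∃ g : ℂ → ℂ, DifferentiableOn ℂ g (connectedComponentIn (interior L) z₀) ∧
      ∀ z : L, (z : ℂ) ∈ connectedComponentIn (interior L) z₀ → f z = ((g z : ℂ) : OnePoint ℂ)

theorem chordal_eq (x y : OnePoint ℂ) : chordal x y = chi x y := by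
  induction x using OnePoint.rec with
  | infty =>
    induction y using OnePoint.rec with
    | infty => rfl
    | coe b => rfl
  | coe a =>
    induction y using OnePoint.rec with
    | infty => rfl
    | coe b => rfl

/-- **Main theorem.** -/
theorem result (L : Set ℂ) (hL : IsCompact L) (hLc : IsConnected Lᶜ) (f : L → OnePoint ℂ) :
    IsPolynomialLimit L f ↔ InM L f := by
  classical
  obtain ⟨F, hF⟩ : ∃ F : ℂ → OnePoint ℂ, ∀ z : L, F z = f z :=
    ⟨fun z => if h : z ∈ L then f ⟨z, h⟩ else ∞, fun z => dif_pos z.2⟩
  have hres : L.domRestrict F = f := funext hF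
  constructor
  · rintro ⟨p, hp⟩
    have hc : Continuous f := by
      refine continuous_of_limit (fun n (z : L) => (((p n).eval (z : ℂ) : ℂ) : OnePoint ℂ)) f
        (fun n => OnePoint.continuous_coe.comp ((p n).continuous.comp continuous_subtype_val)) ?_
      intro ε hε
      obtain ⟨N, hN⟩ := hp ε hε
      exact ⟨N, fun n hn z => by rw [← chordal_eq]; exact hN n hn z⟩
    refine ⟨hc, fun z₀ hz₀ => ?_⟩
    have hFc : ContinuousOn F L := by
      rw [continuousOn_iff_continuous_domRestrict, hres]
      exact hc
    have hVi : connectedComponentIn (interior L) z₀ ⊆ interior L :=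
      connectedComponentIn_subset _ _
    rcases dichotomy hFc p (by
      intro ε hε
      obtain ⟨N, hN⟩ := hp ε hε
      refine ⟨N, fun n hn z hz => ?_⟩
      have h1 := hN n hn ⟨z, hz⟩
      rw [chordal_eq] at h1
      rw [hF ⟨z, hz⟩]
      exact h1) (connectedComponentIn (interior L) z₀) isOpen_interior.connectedComponentIn
      isPreconnected_connectedComponentIn hVi with h1 | ⟨h1, h2⟩
    · left
      intro z hz
      rw [← hF z]
      exact h1 z hz
    · right
      refine ⟨fun z => fin (F z), h2, fun z hz => ?_⟩
      rw [coe_fin (h1 z hz), hF z]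
  · rintro ⟨hc, hd⟩
    have hFc : ContinuousOn F L := by
      rw [continuousOn_iff_continuous_domRestrict, hres]
      exact hc
    have hyp : Hyp L F := by
      refine ⟨hL, hLc, hFc, fun V hVo hVc hV => ?_⟩
      rcases V.eq_empty_or_nonempty with h0 | ⟨z₀, hz₀⟩
      · left
        intro z hz
        rw [h0] at hz
        exact absurd hz (notMem_empty z)
      · have hsub := hVc.subset_connectedComponentIn hz₀ hV
        rcases hd z₀ (hV hz₀) with h1 | ⟨g, hg, h1⟩
        · left
          intro z hz
          have h2 := h1 ⟨z, interior_subset (hV hz)⟩ (hsub hz)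
          rw [← hF ⟨z, interior_subset (hV hz)⟩] at h2
          exact h2
        · right
          have h3 : ∀ z ∈ V, F z = ((g z : ℂ) : OnePoint ℂ) := by
            intro z hz
            have h2 := h1 ⟨z, interior_subset (hV hz)⟩ (hsub hz)
            rw [← hF ⟨z, interior_subset (hV hz)⟩] at h2
            exact h2
          refine ⟨fun z hz => ?_, (hg.mono hsub).congr fun z hz => ?_⟩
          · rw [h3 z hz]
            exact OnePoint.coe_ne_infty _
          · rw [h3 z hz, fin_coe]
    have hex : ∀ n : ℕ, ∃ p : Polynomial ℂ, ∀ z ∈ L,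
        chi ((p.eval z : ℂ) : OnePoint ℂ) (F z) < 1 / ((n : ℝ) + 1) :=
      fun n => hyp.approx (by positivity)
    choose p hp using hex
    refine ⟨p, fun ε hε => ?_⟩
    obtain ⟨N, hN⟩ := exists_nat_one_div_lt hε
    refine ⟨N, fun n hn z => ?_⟩
    rw [chordal_eq, ← hF z]
    refine (hp n z z.2).trans_le (le_trans ?_ hN.le)
    apply one_div_le_one_div_of_le (by positivity)
    have : (N : ℝ) ≤ n := by exact_mod_cast hn
    linarith

end Pool.Agent.Results.MP_215127_an.ChordalMergelyan
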